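import Pool.Agent.Helper73.SM.GoalsK

/-!
# Project KR, packet KLL
-/

set_option autoImplicit false

namespace Pool.Agent.Helper85.SM

open Pool.Agent.Helper73.SM

theorem caseA (k m p l : ℤ) (hk : 3 ≤ k) (hm : 1 ≤ m) (hmk : m < k) (hc : IsCoprime m k)
    (hp : 2 * k < p) (hl : 1 ≤ l) (hl2 : 2 * l < p) (hd : p ∣ k * l + m) :
    p ≤ k * l + m ∧ 2 * k * l ≤ (k - 1) * p + 2 * m := by
  obtain ⟨t, ht⟩ := hd
  have hpos : 0 < k * l + m := by positivity
  have hp0 : 0 < p := by linarith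
  have ht1 : 1 ≤ t := by
    by_contra h
    have : t ≤ 0 := by omega
    nlinarith
  refine ⟨by nlinarith, ?_⟩
  have h1 : 2 * t < k + 1 := by
    by_contra h
    have : k + 1 ≤ 2 * t := by omega
    nlinarith
  have h2 : 2 * t ≠ k := by
    intro h
    have h3 : t ∣ m := ⟨p - 2 * l, by linear_combination ht + l * h⟩
    have h4 : t ∣ k := ⟨2, by linarith⟩
    have h5 := hc.isUnit_of_dvd' h3 h4
    rcases Int.isUnit_iff.1 h5 with h6 | h6
    · omega
    · omega
  have h3 : 2 * t ≤ k - 1 := by omega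
  nlinarith

theorem caseB (k m p l : ℤ) (hk : 3 ≤ k) (hm : 1 ≤ m) (hmk : m < k)
    (hp : 2 * k < p) (hl : 1 ≤ l) (hl2 : 2 * l < p) (hd : p ∣ k * l - m) :
    p ≤ k * l + m ∧ 2 * k * l ≤ (k - 1) * p + 2 * m := by
  obtain ⟨t, ht⟩ := hd
  have hpos : 0 < k * l - m := by nlinarith
  have hp0 : 0 < p := by linarith
  have ht1 : 1 ≤ t := by
    by_contra h
    have : t ≤ 0 := by omega
    nlinarith
  refine ⟨by nlinarith, ?_⟩
  have h1 : 2 * t < k := by
    by_contra h
    have : k ≤ 2 * t := by omega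
    nlinarith
  have h3 : 2 * t ≤ k - 1 := by omega
  nlinarith

theorem goalKLL : StmtKLL := by
  intro k m p hk hp h2k
  obtain ⟨hk3, hm1, hmk, hc⟩ := hk
  have : Fact p.Prime := ⟨hp⟩
  have hkp : (k : ZMod p) ≠ 0 := by
    intro h
    rw [ZMod.natCast_eq_zero_iff] at h
    have := Nat.le_of_dvd (by omega) h
    omega
  have hmp : (m : ZMod p) ≠ 0 := by
    intro h
    rw [ZMod.natCast_eq_zero_iff] at h
    have := Nat.le_of_dvd (by omega) h
    omega
  set x : ZMod p := -(m : ZMod p) / k with hx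
  have hx0 : x ≠ 0 := div_ne_zero (neg_ne_zero.2 hmp) hkp
  have hxv : 1 ≤ x.val := by
    rw [Nat.one_le_iff_ne_zero, Ne, ZMod.val_eq_zero]
    exact hx0
  have hxl : x.val < p := ZMod.val_lt x
  have hdvd : (p : ℤ) ∣ (k : ℤ) * (x.val : ℤ) + m := by
    rw [← ZMod.intCast_zmod_eq_zero_iff_dvd]
    push_cast
    rw [ZMod.natCast_zmod_val, hx]
    field_simp
    ring
  have hcop : IsCoprime (m : ℤ) (k : ℤ) := by
    rw [Int.isCoprime_iff_gcd_eq_one]
    exact_mod_cast hc
  by_cases h : 2 * x.val < p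
  · refine ⟨x.val, ⟨hxv, h, Or.inl hdvd⟩, ?_⟩
    have h1 := caseA k m p x.val (by exact_mod_cast hk3) (by exact_mod_cast hm1)
      (by exact_mod_cast hmk) hcop (by exact_mod_cast h2k) (by exact_mod_cast hxv)
      (by exact_mod_cast h) hdvd
    refine ⟨by exact_mod_cast h1.1, ?_⟩
    have h2 := h1.2
    zify [show 1 ≤ k by omega]
    exact h2
  · have hne : 2 * x.val ≠ p := by
      intro h1
      have : 2 ∣ p := ⟨x.val, h1.symm⟩
      rcases (Nat.dvd_prime hp).1 this with h3 | h3 <;> omega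
    have hl1 : 1 ≤ p - x.val := by omega
    have hl2 : 2 * (p - x.val) < p := by omega
    have hd2 : (p : ℤ) ∣ (k : ℤ) * ((p - x.val : ℕ) : ℤ) - m := by
      rw [Nat.cast_sub hxl.le]
      have : (k : ℤ) * ((p : ℤ) - (x.val : ℤ)) - m =
          (p : ℤ) * k - ((k : ℤ) * (x.val : ℤ) + m) := by ring
      rw [this]
      exact dvd_sub (dvd_mul_right _ _) hdvd
    refine ⟨p - x.val, ⟨hl1, hl2, Or.inr hd2⟩, ?_⟩
    have h1 := caseB k m p (p - x.val : ℕ) (by exact_mod_cast hk3) (by exact_mod_cast hm1)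
      (by exact_mod_cast hmk) (by exact_mod_cast h2k) (by exact_mod_cast hl1)
      (by exact_mod_cast hl2) hd2
    refine ⟨by exact_mod_cast h1.1, ?_⟩
    have h2 := h1.2
    zify [show 1 ≤ k by omega]
    exact h2

end Pool.Agent.Helper85.SM
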